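import Pool.Agent.W602.Cov.GAll

/-!
Abelian covers of projective space which are highly ramified along a hyperplane arrangement: the
Green-Griffiths-Lang conjecture in both directions, with the exceptional locus of the entire
curves.
-/

set_option autoImplicit false

namespace Pool.Agent.Results.MP_2a5ae2_ag.ArrangementCovers

open Pool.Agent.W602.Cov Pool.Agent.W602.GT

/-- An irreducible abelian cover `X` of projective `n`-space which is ramified to order more than
`max (n ^ 2 (n + 1)) 3 * q` along an arrangement of `q` hyperplanes is of general type if and only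
if it is pseudo-Brody hyperbolic, if and only if the arrangement is not reducible. In that case
every entire curve in `X` lies over one of the hyperplanes, or over one of the finitely many linear
subspaces spanned by the two flats of complementary sets of hyperplanes, and all of these are
proper subspaces. -/
theorem result (n q r M : ℕ) (hn : 1 ≤ n) (X : Cover n q r)
    (hM : max (n ^ 2 * (n + 1)) 3 * q < M) (hR : X.Ramified M) (hF : X.Free) (hI : X.Irred)
    (K : Type) [Field K] [Algebra ℂ K] (x : Fin (n + 1) → K) (y : Fin r → K)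
    (hK : X.FunctionField K x y) :
    [GeneralType ℂ K n, X.PseudoBrody, ¬ Reducible X.ℓ].TFAE ∧
    (¬ Reducible X.ℓ →
      (∀ κ : Finset (Fin q), κ.Nonempty → κ ≠ Finset.univ → Flat X.ℓ κ ⊔ Flat X.ℓ κᶜ ≠ ⊤) ∧
      ∀ x y, X.EntireCurve x y →
        (∃ i, ∀ z, X.ℓ i (x z) = 0) ∨
        ∃ κ : Finset (Fin q), κ.Nonempty ∧ κ ≠ Finset.univ ∧
          ∀ z, x z ∈ Flat X.ℓ κ ⊔ Flat X.ℓ κᶜ) := by
  have hM1 : n ^ 2 * (n + 1) * q < M :=
    lt_of_le_of_lt (Nat.mul_le_mul_right q (le_max_left _ _)) hM
  have hM2 : (n ^ 2 + n + 1) * q < M := by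
    refine lt_of_le_of_lt (Nat.mul_le_mul_right q ?_) hM
    rcases Nat.lt_or_ge n 2 with h | h
    · obtain rfl : n = 1 := by omega
      decide
    · refine le_trans ?_ (le_max_left _ _)
      nlinarith [Nat.mul_le_mul h h, Nat.mul_le_mul (Nat.mul_le_mul h h) h]
  constructor
  · tfae_have 2 ↔ 3 := ⟨fun h hred => X.not_pseudoBrody hI hred h, fun h => X.pseudoBrody hM1 hR h⟩
    tfae_have 3 → 1 := fun h => G.generalType X hn hM2 hR hF hK h
    tfae_have 1 → 3 := fun h hred => G.not_generalType X hF hK hred h
    tfae_finish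
  · intro hirr
    refine ⟨fun κ h1 h2 => flat_ne_top X.hℓ hirr h1 h2, fun x y hxy => ?_⟩
    by_cases hne : ∀ i, ∃ z, X.ℓ i (x z) ≠ 0
    · exact Or.inr (curve_flat X.hℓ hirr hM1 (X.curve hxy) hne (X.curve_ord hR hxy hne))
    · push Not at hne
      exact Or.inl hne

end Pool.Agent.Results.MP_2a5ae2_ag.ArrangementCovers
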