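import Pool.Agent.W601.SM.Var
import Pool.Agent.W601.SM.Gen

/-!
The Green-Griffiths-Lang property for projective varieties with a generically finite morphism to a
projective space of any dimension (onto the image), ramified, with any mean multiplicity greater
than one, over sufficiently many hyperplanes in general position.
-/

set_option autoImplicit false

namespace Pool.Agent.Results.MP_2a5ae2_ag.HyperplaneCovers

open Pool.Agent.W601.SM MvPolynomial

/-- Let `n ≥ 1`, `μ > 1`.

(1) Let `ℓ i = 0` be `q` hyperplanes in projective `n`-space which, as points of the dual space,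
impose independent conditions on the forms of degree `k`, and suppose that
`2 * C(n + k - 1, n - 1) * μ < q * (μ - 1)`. Let `X` be any projective variety with a morphism to
projective `n`-space which is ramified over the hyperplanes with mean multiplicity at least `μ`.
Then every entire curve in `X` is mapped into one of the hyperplanes or to a point. If moreover `X`
is irreducible, the morphism is generically finite onto its image and the image is not contained in
one of the hyperplanes, then `X` is pseudo-Brody hyperbolic.

(2) If `q > C(n + K, n)`, where `K ≥ 2 * n * μ / (μ - 1)`, there is a `k` with this inequality such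
that all `q`-tuples of hyperplanes outside a proper Zariski closed set impose independent
conditions on the forms of degree `k`. -/
theorem result (n : ℕ) (hn : 1 ≤ n) (μ : ℝ) (hμ : 1 < μ) :
    (∀ (k q : ℕ) (ℓ : Fin q → Fin (n + 1) → ℂ), Ind k ℓ →
      2 * ((n + k - 1).choose (n - 1) : ℕ) * μ < q * (μ - 1) →
      ∀ (N : ℕ) (X : BiSet N n), X.MeanRamified ℓ μ →
        (∀ u v, X.EntireCurve u v →
          (∃ i, ∀ z, ∑ j, ℓ i j * v z j = 0) ∨ ∀ z z', ∃ t : ℂ, v z' = t • v z) ∧
        (X.Irred → X.GenFinite → (∀ i, ∃ u v, X.Mem u v ∧ ∑ j, ℓ i j * v j ≠ 0) →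
          X.PseudoBrody)) ∧
    (∀ K q : ℕ, 2 * n * μ ≤ K * (μ - 1) → (n + K).choose n < q → ∃ k : ℕ,
      2 * ((n + k - 1).choose (n - 1) : ℕ) * μ < q * (μ - 1) ∧
      ∃ Ψ : MvPolynomial (Fin q × Fin (n + 1)) ℂ, Ψ ≠ 0 ∧
        ∀ ℓ : Fin q → Fin (n + 1) → ℂ, eval (fun x => ℓ x.1 x.2) Ψ ≠ 0 → Ind k ℓ) := by
  refine ⟨fun k q ℓ hI hq N X hX => variety_main hn hI hμ hq X hX, fun K q hK hq => ?_⟩
  obtain ⟨k, h1, h2⟩ := numbers n hn μ hμ K q hK hq
  exact ⟨k, h2, generic h1⟩

end Pool.Agent.Results.MP_2a5ae2_ag.HyperplaneCovers
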