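import Pool.Agent.W602.TL.Main

/-!
The Green-Griffiths-Lang property for projective varieties over the projective plane which are
ramified, with small mean multiplicity, over an arbitrary arrangement of sufficiently many lines.
-/

set_option autoImplicit false

namespace Pool.Agent.Results.MP_2a5ae2_ag.MeanRamification

open Pool.Agent.W602.TL MvPolynomial

/-- Let `ℓ i` be `q` different lines in the projective plane, at most `K` of them through any
point, and let `μ > 1` be a real number with `4 μ ^ 2 < q (μ - 1) ^ 2` and
`2 K μ < q (μ - 1)`. There is a plane curve `R = 0` such that for every projective variety `X` with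
a morphism to the plane which is ramified over the lines with mean multiplicity at least `μ`, every
entire curve in `X` is mapped into the curve `R = 0` or to a point. If moreover the morphism is
dominant and generically finite, `X` is pseudo-Brody hyperbolic. -/
theorem result {q K : ℕ} {μ : ℝ} (ℓ : Fin q → Fin 3 → ℂ)
    (hdist : ∀ i j, i ≠ j → ∀ t : ℂ, ℓ i ≠ t • ℓ j)
    (hK : ∀ x : Fin 3 → ℂ, x ≠ 0 →
      (Finset.univ.filter fun i => ∑ j, ℓ i j * x j = 0).card ≤ K)
    (hμ : 1 < μ) (h1 : 4 * μ ^ 2 < q * (μ - 1) ^ 2) (h2 : 2 * K * μ < q * (μ - 1)) :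
    ∃ (R : MvPolynomial (Fin 3) ℂ) (e : ℕ), R.IsHomogeneous e ∧ R ≠ 0 ∧
      ∀ (N : ℕ) (X : BiSet N), X.MeanRamified ℓ μ →
        (∀ u v, X.EntireCurve u v →
          (∀ z, eval (v z) R = 0) ∨ ∀ z z', ∃ t : ℂ, v z' = t • v z) ∧
        (X.Dominant → X.GenFinite → X.PseudoBrody) :=
  main ℓ hdist hK hμ h1 h2

end Pool.Agent.Results.MP_2a5ae2_ag.MeanRamification
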