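import Mathlib
import Pool.Agent.W603.CH.Vert

/-!
Essential punctured discs and entire curves in quasi-projective varieties on which one relation
between forms with few zeros holds, and explicit hypersurfaces and complements near the Fermat ones.
-/

namespace Pool.Agent.Results.MP_2a5ae2_ag.NearFermat

open MvPolynomial Metric Pool.Agent.W603.PV Pool.Agent.W603.BP Pool.Agent.W603.BPR
  Pool.Agent.W603.CHV

theorem result {n : ℕ} :
    (∀ (p : Ideal (MvPolynomial (Fin (n + 1)) ℂ)) (Q : MvPolynomial (Fin (n + 1)) ℂ) (s d : ℕ)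
      (_hp : IsHomog p) (_hQ : ∃ q, Q.IsHomogeneous q) (_hs : 1 ≤ s) (R : Rel p Q s d)
      (_num : s * (s - 1) * ∑ b, R.e b + (s + 2) * ∑ b, R.k b < d),
      (∀ f, PCurve p Q f → ¬ Extends f → InExc R (ball 0 1 \ {0}) f) ∧
      (∀ f, EntireCurve p Q f → InExc R Set.univ f) ∧
      (p.IsPrime → (∀ S : Finset (Fin (s + 1)), S.Nonempty → S ≠ Finset.univ →
        ∑ b ∈ S, R.ψ b * R.g b ∉ p) → (∀ b, R.φ b ∉ p) → PseudoPicard p Q)) ∧
    (∀ (c d : ℕ) (F : MvPolynomial (Fin (n + 1)) ℂ), NearVertices c d F →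
      (2 ≤ n → Irreducible F → (n + 1) * n * (n - 1) + (n + 2) * (n + 1) * (d - c) < d →
        PseudoPicard (Ideal.span {F}) 1) ∧
      (1 ≤ n → (n + 1) * n * (n + 1) + (n + 3) * (n + 1) * (d - c) < d →
        PseudoPicard (⊥ : Ideal (MvPolynomial (Fin (n + 1)) ℂ)) F)) :=
  ⟨fun _ _ _ _ hp _ hs R num => ⟨fun _ hf hext => ess_in hp hs R num hf hext,
      fun _ hf => entire_in hp hs R num hf, fun hpr h1 h2 => pseudo hpr hp hs R num h1 h2⟩,
    fun _ _ _ h => ⟨fun hn hF num => hypersurface hn h hF num,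
      fun hn num => complement hn h num⟩⟩

end Pool.Agent.Results.MP_2a5ae2_ag.NearFermat
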